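import Mathlib
import Pool.Agent.FA2.Om1
import Pool.Agent.FA2S.Cond

namespace Pool.Agent.FA2S

open Cardinal Set Pool.Agent.FA2

theorem aleph2_eq : (aleph 2 : Cardinal.{0}) = Order.succ (aleph 1) := by
  rw [Cardinal.succ_aleph]
  congr 1
  exact one_add_one_eq_two.symm

theorem exists_cofinal_aux (W : Type) [LinearOrder W] [WellFoundedLT W] [Om1 W] :
    ∃ 𝒜 : Set (Set (aleph.{0} 2).ord.ToType), #𝒜 ≤ aleph 2 ∧ (∀ c ∈ 𝒜, c.Countable) ∧
      ∀ s : Set (aleph.{0} 2).ord.ToType, s.Countable → ∃ c ∈ 𝒜, s ⊆ c := by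
  classical
  have hI : ∀ β : (aleph.{0} 2).ord.ToType, #(Set.Iio β) ≤ aleph 1 := by
    intro β
    have h := Cardinal.mk_Iio_toType_ord_lt β
    have h' := lt_of_lt_of_eq h aleph2_eq
    exact Order.lt_succ_iff.1 h'
  have he : ∀ β : (aleph.{0} 2).ord.ToType, ∃ e : Set.Iio β → W, Function.Injective e := by
    intro β
    have h := (hI β).trans (Om1.card (W := W)).ge
    obtain ⟨e⟩ := Cardinal.le_def _ _ |>.1 h
    exact ⟨e, e.injective⟩
  choose e he using he
  let c : (aleph.{0} 2).ord.ToType × W → Set (aleph.{0} 2).ord.ToType := fun x =>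
    {y | ∃ h : y < x.1, e x.1 ⟨y, h⟩ < x.2}
  refine ⟨Set.range c, ?_, ?_, ?_⟩
  · refine Cardinal.mk_range_le.trans ?_
    rw [Cardinal.mk_prod, Cardinal.lift_id, Cardinal.lift_id, Cardinal.mk_ord_toType, Om1.card]
    refine (mul_le_mul' le_rfl (aleph_le_aleph.2 one_le_two)).trans
      (Cardinal.mul_eq_self (Cardinal.aleph0_le_aleph 2)).le
  · rintro _ ⟨⟨β, δ⟩, rfl⟩
    have h1 : ({y : Set.Iio β | e β y < δ}).Countable :=
      (Om1.ctbl δ).preimage_of_injOn ((he β).injOn)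
    refine (h1.image Subtype.val).mono ?_
    rintro y ⟨hy, hy2⟩
    exact ⟨⟨y, hy⟩, hy2, rfl⟩
  · intro s hs
    obtain ⟨β, hβ⟩ : ∃ β, ∀ x ∈ s, x < β := by
      by_contra hcon
      push Not at hcon
      have h1 : (Set.univ : Set (aleph.{0} 2).ord.ToType) ⊆ ⋃ x : s, Set.Iic x.1 := by
        intro β _
        obtain ⟨x, hx, hβx⟩ := hcon β
        exact Set.mem_iUnion.2 ⟨⟨x, hx⟩, hβx⟩
      have h2 : #(Set.univ : Set (aleph.{0} 2).ord.ToType) ≤ aleph 1 := by
        refine (Cardinal.mk_le_mk_of_subset h1).trans (card_iUnion_le _ (card_ctbl_le hs) ?_)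
        intro x
        have h3 : Set.Iic x.1 = Set.Iio x.1 ∪ {x.1} := by
          ext y
          simp [le_iff_lt_or_eq]
        rw [h3]
        refine (Cardinal.mk_union_le _ _).trans ?_
        refine (add_le_add (hI _) (card_ctbl_le (Set.countable_singleton _))).trans ?_
        exact (Cardinal.add_eq_self (Cardinal.aleph0_le_aleph 1)).le
      rw [Cardinal.mk_univ, Cardinal.mk_ord_toType] at h2
      exact absurd (aleph_lt_aleph.2 one_lt_two) (not_lt.2 h2)
    have h2 : ((fun y : s => e β ⟨y.1, hβ y.1 y.2⟩) '' Set.univ).Countable := by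
      have : Countable s := hs.to_subtype
      exact (Set.countable_univ).image _
    obtain ⟨δ, hδ⟩ := Om1.bdd _ h2
    refine ⟨c (β, δ), ⟨(β, δ), rfl⟩, fun y hy => ⟨hβ y hy, ?_⟩⟩
    exact hδ _ ⟨⟨y, hy⟩, trivial, rfl⟩

theorem exists_cofinal (W : Type) [LinearOrder W] [WellFoundedLT W] [Om1 W] {K : Type}
    (hK : #K = aleph 2) :
    ∃ 𝒜 : Set (Set K), #𝒜 ≤ aleph 2 ∧ (∀ c ∈ 𝒜, c.Countable) ∧
      ∀ s : Set K, s.Countable → ∃ c ∈ 𝒜, s ⊆ c := by
  obtain ⟨𝒜, h1, h2, h3⟩ := exists_cofinal_aux W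
  have hE : #K = #(aleph.{0} 2).ord.ToType := by rw [hK, Cardinal.mk_ord_toType]
  obtain ⟨e⟩ := Cardinal.eq.1 hE
  refine ⟨(fun c => e ⁻¹' c) '' 𝒜, Cardinal.mk_image_le.trans h1, ?_, ?_⟩
  · rintro _ ⟨c, hc, rfl⟩
    exact (h2 c hc).preimage e.injective
  · intro s hs
    obtain ⟨c, hc, hsc⟩ := h3 (e '' s) (hs.image _)
    exact ⟨e ⁻¹' c, ⟨c, hc, rfl⟩, fun x hx => hsc ⟨x, hx, rfl⟩⟩

theorem card_cond {W K : Type} [LinearOrder W] [WellFoundedLT W] [Om1 W]
    {r : K × W → K × W → Prop} {R : K → W → Set W} {𝒜 : Set (Set K)} (hK : #K ≤ aleph 2)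
    (h𝒜 : #𝒜 ≤ aleph 2) (h𝒜n : 𝒜.Nonempty) : #(Cond r R 𝒜) ≤ aleph 2 := by
  classical
  obtain ⟨w0⟩ := Om1.exists_gt_nonempty (W := W)
  obtain ⟨c0, hc0⟩ := h𝒜n
  have hW : #W ≤ aleph 2 := (Om1.card (W := W)).le.trans (aleph_le_aleph.2 one_le_two)
  have hmul : ∀ {α β : Type}, #α ≤ aleph 2 → #β ≤ aleph 2 → #(α × β) ≤ aleph 2 := by
    intro α β h1 h2
    rw [Cardinal.mk_prod, Cardinal.lift_id, Cardinal.lift_id]
    exact (mul_le_mul' h1 h2).trans (Cardinal.mul_eq_self (Cardinal.aleph0_le_aleph 2)).le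
  have hfin : ∀ {α : Type}, #α ≤ aleph 2 → #(Finset α) ≤ aleph 2 := by
    intro α h1
    rcases finite_or_infinite α with h | h
    · have : Finite (Finset α) := inferInstance
      exact (Cardinal.lt_aleph0_of_finite _).le.trans (Cardinal.aleph0_le_aleph 2)
    · rw [Cardinal.mk_finset_of_infinite]
      exact h1
  -- codes for the side conditions
  let dec : W × W × 𝒜 → W × Set (K × W) := fun z =>
    (z.1, {x : K × W | x.1 ∈ z.2.2.1 ∧ x.2 < z.1 ∧ z.2.1 ∈ R x.1 z.1})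
  have hcode : ∀ y : W × Set (K × W), ∃ z : W × W × 𝒜, (∃ z', dec z' = y) → dec z = y := by
    intro y
    by_cases h : ∃ z', dec z' = y
    · obtain ⟨z', hz'⟩ := h
      exact ⟨z', fun _ => hz'⟩
    · exact ⟨(w0, w0, ⟨c0, hc0⟩), fun h' => absurd h' h⟩
  choose code hcode using hcode
  have hinj : Function.Injective (fun p : Cond r R 𝒜 => (p.B, p.h, p.A.image code)) := by
    intro p q hpq
    have hB : p.B = q.B := congrArg Prod.fst hpq
    have hh : p.h = q.h := congrArg (fun z => z.2.1) hpq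
    have hA : p.A.image code = q.A.image code := congrArg (fun z => z.2.2) hpq
    have hran : ∀ p : Cond r R 𝒜, ∀ a ∈ p.A, dec (code a) = a := by
      intro p a ha
      apply hcode
      obtain ⟨-, b, -, -, -, c, hc, h3⟩ := p.hA a ha
      refine ⟨(a.1, b.2.2, ⟨c, hc⟩), ?_⟩
      exact Prod.ext rfl h3.symm
    have hsub : ∀ p q : Cond r R 𝒜, p.A.image code = q.A.image code → p.A ⊆ q.A := by
      intro p q h a ha
      have h1 : code a ∈ q.A.image code := by
        rw [← h]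
        exact Finset.mem_image_of_mem _ ha
      obtain ⟨a', ha', he⟩ := Finset.mem_image.1 h1
      have h2 : a' = a := by
        rw [← hran q a' ha', ← hran p a ha, he]
      rw [← h2]
      exact ha'
    exact Cond.ext' hB hh (Finset.Subset.antisymm (hsub p q hA) (hsub q p hA.symm))
  refine (Cardinal.mk_le_of_injective hinj).trans ?_
  exact hmul (hfin (hmul hW (hmul hW hW))) (hmul (hfin (hmul (hmul hK hW) hW))
    (hfin (hmul hW (hmul hW h𝒜))))

end Pool.Agent.FA2S
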