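import Mathlib
import Pool.Agent.FA2S.Cond
import Pool.Agent.FA2.GoodOp

namespace Pool.Agent.FA2S

open Cardinal Set Pool.Agent.FA2

section

variable {W K : Type} [LinearOrder W] [WellFoundedLT W] [Om1 W]
  {r : K × W → K × W → Prop} [IsWellOrder (K × W) r] {R : K → W → Set W} {𝒜 : Set (Set K)}

open Classical in
/-- the conditions in `D` whose finite part extends `(B, h)` by exactly `n` new points -/
def Ext (D : Set (Cond r R 𝒜)) (B : Finset (W × W × W)) (h : Finset ((K × W) × W)) (n : ℕ) :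
    Set (Cond r R 𝒜) :=
  {d | d ∈ D ∧ B ⊆ d.B ∧ h ⊆ d.h ∧ (d.h \ h).card = n}

open Classical in
theorem dichotomy (D : Set (Cond r R 𝒜)) (B : Finset (W × W × W)) (h : Finset ((K × W) × W))
    (n : ℕ) :
    (∃ Z : Set (K × W), Z.Countable ∧ ∀ d ∈ Ext D B h n, ∃ y ∈ d.h \ h, y.1 ∈ Z) ∨
    (∃ U : W → Cond r R 𝒜, (∀ t, U t ∈ Ext D B h n) ∧
      ∀ t, ∀ t' < t, ∀ y ∈ (U t).h \ h, ∀ y' ∈ (U t').h \ h, y.1 ≠ y'.1) := by
  by_cases H : ∃ Z : Set (K × W), Z.Countable ∧ ∀ d ∈ Ext D B h n, ∃ y ∈ d.h \ h, y.1 ∈ Z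
  · exact Or.inl H
  · right
    push Not at H
    have wf : WellFounded ((· < ·) : W → W → Prop) := wellFounded_lt
    have ex : ∀ (t : W) (f : ∀ t' : W, t' < t → Cond r R 𝒜), ∃ p : Cond r R 𝒜, p ∈ Ext D B h n ∧
        ∀ t' (ht : t' < t), ∀ y ∈ p.h \ h, ∀ y' ∈ (f t' ht).h \ h, y.1 ≠ y'.1 := by
      intro t f
      have hc : (⋃ t' : Set.Iio t, (f t'.1 t'.2).full).Countable := by
        have : Countable (Set.Iio t) := (Om1.ctbl t).to_subtype
        exact Set.countable_iUnion fun t' => Cond.full_countable _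
      obtain ⟨p, hp, hp2⟩ := H _ hc
      refine ⟨p, hp, fun t' ht y hy y' hy' he => hp2 y hy ?_⟩
      refine Set.mem_iUnion.2 ⟨⟨t', ht⟩, Or.inl ⟨y'.2, ?_⟩⟩
      rw [he]
      exact (Finset.mem_sdiff.1 hy').1
    choose F hF1 hF2 using ex
    let U : W → Cond r R 𝒜 := WellFounded.fix wf F
    have hU : ∀ t, U t = F t (fun t' _ => U t') := fun t => WellFounded.fix_eq _ _ _
    refine ⟨U, fun t => by rw [hU]; exact hF1 _ _, fun t t' ht y hy y' hy' => ?_⟩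
    rw [hU t] at hy
    exact hF2 t (fun t' _ => U t') t' ht y hy y' hy'

open Classical in
theorem dichotomy2 (D : Set (Cond r R 𝒜)) (B : Finset (W × W × W)) (h : Finset ((K × W) × W))
    (n : ℕ) :
    (∃ Z : Set (K × W), Z.Countable ∧ ∀ d ∈ Ext D B h n, ∃ y ∈ d.h \ h, y.1 ∈ Z) ∨
    (∃ (U : W → Cond r R 𝒜) (θ : ℕ → W → W), (∀ t, U t ∈ Ext D B h n) ∧
      ∀ m ε, ∀ A : List (Set (K × W)), A.length = m → (∀ a ∈ A, Small r ε a) →
        ∃ i < θ m ε, ∀ a ∈ A, ∀ y ∈ (U i).h \ h, y.1 ∉ a) := by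
  rcases dichotomy D B h n with H | ⟨U, hU, hd⟩
  · exact Or.inl H
  · right
    have hcard : ∀ t, ((U t).h \ h).card = n := fun t => (hU t).2.2.2
    let e : ∀ t, ((U t).h \ h : Finset ((K × W) × W)) ≃ Fin n := fun t =>
      Finset.equivFinOfCardEq (hcard t)
    let β : Fin n → W → K × W := fun l t => ((e t).symm l).1.1
    have hβ : ∀ l, Function.Injective (β l) := by
      intro l t t' he
      by_contra hne
      rcases lt_or_gt_of_ne hne with hlt | hlt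
      · exact hd t' t hlt _ ((e t').symm l).2 _ ((e t).symm l).2 he.symm
      · exact hd t t' hlt _ ((e t).symm l).2 _ ((e t').symm l).2 he
    choose θ hθ using fun m ε => avoid r n β hβ m ε
    refine ⟨U, θ, hU, fun m ε A hA hsm => ?_⟩
    obtain ⟨i, hi, h2⟩ := hθ m ε A hA hsm
    refine ⟨i, hi, fun a ha y hy => ?_⟩
    have := h2 a ha (e i ⟨y, hy⟩)
    simpa [β] using this

open Classical in
/-- the choice functions used to define the club of good countable sets -/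
theorem exists_choice :
    ∃ (Z : Set (Cond r R 𝒜) → Finset (W × W × W) → Finset ((K × W) × W) → ℕ → Set (K × W))
      (U : Set (Cond r R 𝒜) → Finset (W × W × W) → Finset ((K × W) × W) → ℕ → W → Cond r R 𝒜)
      (θ : Set (Cond r R 𝒜) → Finset (W × W × W) → Finset ((K × W) × W) → ℕ → ℕ → W → W),
      (∀ D B h n, (Z D B h n).Countable) ∧ ∀ D B h n,
      (∀ d ∈ Ext D B h n, ∃ y ∈ d.h \ h, y.1 ∈ Z D B h n) ∨
      ((∀ t, U D B h n t ∈ Ext D B h n) ∧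
      ∀ m ε, ∀ A : List (Set (K × W)), A.length = m → (∀ a ∈ A, Small r ε a) →
        ∃ i < θ D B h n m ε, ∀ a ∈ A, ∀ y ∈ (U D B h n i).h \ h, y.1 ∉ a) := by
  obtain ⟨w0⟩ := Om1.exists_gt_nonempty (W := W)
  have c0 : Cond r R 𝒜 := ⟨∅, ∅, ∅, by simp, by simp, by simp, by simp, by simp, by simp⟩
  have key : ∀ (D : Set (Cond r R 𝒜)) (B : Finset (W × W × W)) (h : Finset ((K × W) × W)) (n : ℕ),
      ∃ (Z : Set (K × W)) (U : W → Cond r R 𝒜) (θ : ℕ → W → W), Z.Countable ∧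
      ((∀ d ∈ Ext D B h n, ∃ y ∈ d.h \ h, y.1 ∈ Z) ∨
      ((∀ t, U t ∈ Ext D B h n) ∧
      ∀ m ε, ∀ A : List (Set (K × W)), A.length = m → (∀ a ∈ A, Small r ε a) →
        ∃ i < θ m ε, ∀ a ∈ A, ∀ y ∈ (U i).h \ h, y.1 ∉ a)) := by
    intro D B h n
    rcases dichotomy2 D B h n with ⟨Z, hZ, H⟩ | ⟨U, θ, H⟩
    · exact ⟨Z, fun _ => c0, fun _ _ => w0, hZ, Or.inl H⟩
    · exact ⟨∅, U, θ, Set.countable_empty, Or.inr H⟩
  choose Z U θ h1 h2 using key
  exact ⟨Z, U, θ, h1, h2⟩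

end

end Pool.Agent.FA2S
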