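import Mathlib
import Pool.Agent.FA2.Om1
import Pool.Agent.FA2.Avoid
import Pool.Agent.FA2.Defs
import Pool.Agent.FA2.EvDiff
import Pool.Agent.FA2.Cohen
import Pool.Agent.FA2S.Cond
import Pool.Agent.FA2S.Proper
import Pool.Agent.FA2S.Unif
import Pool.Agent.FA2S.Card

namespace Pool.Agent.FA2S

open Cardinal Set Pool.Agent.FA2

theorem cond_nonempty {W K : Type} [LinearOrder W] {r : K × W → K × W → Prop}
    {R : K → W → Set W} {𝒜 : Set (Set K)} : Nonempty (Cond r R 𝒜) :=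
  ⟨⟨∅, ∅, ∅, by simp, by simp, by simp, by simp, by simp, by simp⟩⟩

section

variable {W K : Type} [LinearOrder W] [WellFoundedLT W] [Om1 W]

theorem fa_unif (H : ∀ (P : Type) [PartialOrder P], Nonempty P → #P ≤ aleph 2 →
      ProperPoset P → CCaleph2 P → FAaleph2 P) (k0 : K) (hK : #K = aleph 2)
    (R : K → W → Set W) (bd : K → K → W)
    (hR : ∀ (MK : Set K), MK.Countable → ∀ δ : W, (∀ α ∈ MK, ∀ β ∈ MK, bd α β < δ) →
      ∃ η, ∀ α ∈ MK, η ∈ R α δ) :
    ∃ f : W → W, ∀ α : K, ∃ C : Set W, IsClub1 C ∧ ∀ δ ∈ C, f δ ∈ R α δ := by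
  obtain ⟨𝒜, h1, h2, h3⟩ := exists_cofinal W hK
  have hne : 𝒜.Nonempty := by
    obtain ⟨c, hc, -⟩ := h3 ∅ Set.countable_empty
    exact ⟨c, hc⟩
  exact unif (r := WellOrderingRel) (𝒜 := 𝒜) hK.le
    (H (Cond WellOrderingRel R 𝒜) cond_nonempty (card_cond hK.le h1 hne)
      (cond_proper bd k0 h2 h3 hR) cond_cc)

theorem fa_contra (H : ∀ (P : Type) [PartialOrder P], Nonempty P → #P ≤ aleph 2 →
      ProperPoset P → CCaleph2 P → FAaleph2 P) (k0 : K) (hK : #K = aleph 2) (g : K → W → W)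
    (hg : ∀ α β, α ≠ β → EvD (g α) (g β)) : False := by
  classical
  -- distinct reals
  have hreal : aleph 2 ≤ #(ℕ → Bool) := coh_fa (H Coh inferInstance
    ((Cardinal.mk_le_aleph0_iff.2 inferInstance).trans (Cardinal.aleph0_le_aleph 2))
    coh_proper coh_cc)
  rw [← hK] at hreal
  obtain ⟨rr⟩ := Cardinal.le_def _ _ |>.1 hreal
  -- the bounds
  obtain ⟨v0⟩ := Om1.exists_gt_nonempty (W := W)
  obtain ⟨v1, hv01⟩ := Om1.exists_gt v0
  have hbd : ∀ α β : K, ∃ b : W, α ≠ β → ∀ δ, b < δ → g α δ ≠ g β δ := by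
    intro α β
    by_cases h : α = β
    · exact ⟨v0, fun h' => absurd h h'⟩
    · obtain ⟨b, hb⟩ := hg α β h
      exact ⟨b, fun _ => hb⟩
  choose bd hbd using hbd
  -- first uniformization: a bound
  obtain ⟨f0, hf0⟩ := fa_unif H k0 hK (fun α δ => {η | g α δ < η}) (fun _ _ => v0) (by
    intro MK hMK δ _
    obtain ⟨y, hy⟩ := Om1.bdd ((fun α => g α δ) '' MK) (hMK.image _)
    exact ⟨y, fun α hα => hy _ ⟨α, hα, rfl⟩⟩)
  -- coding
  have hcode : ∀ δ : W, ∃ c : W → ℕ, Set.InjOn c (Set.Iio (f0 δ)) := fun δ =>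
    Set.countable_iff_exists_injOn.1 (Om1.ctbl (f0 δ))
  choose c hc using hcode
  let bit : Bool → W := fun b => if b then v1 else v0
  have hbit : Function.Injective bit := by
    intro a b hab
    cases a <;> cases b
    · rfl
    · exact absurd hab (by simp only [bit]; simpa using hv01.ne)
    · exact absurd hab (by simp only [bit]; simpa using hv01.ne')
    · rfl
  -- second uniformization
  have hsec : ∀ n k : ℕ, ∃ f : W → W, ∀ α : K, ∃ C : Set W, IsClub1 C ∧ ∀ δ ∈ C,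
      f δ ∈ {η : W | (g α δ < f0 δ ∧ c δ (g α δ) = n) → η = bit (rr α k)} := by
    intro n k
    refine fa_unif H k0 hK
      (fun α δ => {η | (g α δ < f0 δ ∧ c δ (g α δ) = n) → η = bit (rr α k)}) bd ?_
    intro MK _ δ hδ
    by_cases hex : ∃ α ∈ MK, g α δ < f0 δ ∧ c δ (g α δ) = n
    · obtain ⟨α, hα, h1, h2⟩ := hex
      refine ⟨bit (rr α k), fun β hβ h => ?_⟩
      have hgeq : g α δ = g β δ := hc δ h1 h.1 (h2.trans h.2.symm)
      have hαβ : α = β := by
        by_contra hne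
        exact hbd α β hne δ (hδ α hα β hβ) hgeq
      rw [hαβ]
    · exact ⟨v0, fun β hβ h => absurd ⟨β, hβ, h⟩ hex⟩
  choose f C0 hC0 hf using hsec
  choose Cb hCb hfb using hf0
  -- the choice of the points
  have hpt : ∀ α : K, ∃ δ : W, δ ∈ Cb α ∧ ∀ n k, δ ∈ C0 n k α := by
    intro α
    have hcl : IsClub1 (Cb α ∩ ⋂ n, ⋂ k, C0 n k α) :=
      (hCb α).inter (IsClub1.iInter fun n => IsClub1.iInter fun k => hC0 n k α)
    obtain ⟨δ, hδ, -⟩ := hcl.unb v0
    exact ⟨δ, hδ.1, fun n k => Set.mem_iInter.1 (Set.mem_iInter.1 hδ.2 n) k⟩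
  choose d hd1 hd2 using hpt
  have hinj : Function.Injective (fun α : K => (d α, c (d α) (g α (d α)))) := by
    intro α β hab
    have h1 : d α = d β := congrArg Prod.fst hab
    have h2 : c (d α) (g α (d α)) = c (d β) (g β (d β)) := congrArg Prod.snd hab
    apply rr.injective
    funext k
    apply hbit
    have e1 := hf (c (d α) (g α (d α))) k α (d α) (hd2 α _ k) ⟨hfb α _ (hd1 α), rfl⟩
    have e2 := hf (c (d β) (g β (d β))) k β (d β) (hd2 β _ k) ⟨hfb β _ (hd1 β), rfl⟩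
    rw [← e1, ← e2, ← h2, ← h1]
  have hcard : #K ≤ aleph 1 := by
    refine (Cardinal.mk_le_of_injective hinj).trans ?_
    rw [Cardinal.mk_prod, Cardinal.lift_id, Cardinal.lift_id, Om1.card, Cardinal.mk_nat]
    exact (mul_le_mul' le_rfl (Cardinal.aleph0_le_aleph 1)).trans
      (Cardinal.mul_eq_self (Cardinal.aleph0_le_aleph 1)).le
  rw [hK] at hcard
  exact absurd (aleph_lt_aleph.2 one_lt_two) (not_lt.2 hcard)

end

theorem exists_bad : ∃ (P : Type) (_ : PartialOrder P), Nonempty P ∧ #P ≤ aleph 2 ∧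
    ProperPoset P ∧ CCaleph2 P ∧ ¬ FAaleph2 P := by
  classical
  by_contra hcon
  push Not at hcon
  have H : ∀ (P : Type) [PartialOrder P], Nonempty P → #P ≤ aleph 2 → ProperPoset P →
      CCaleph2 P → FAaleph2 P := fun P hP h1 h2 h3 h4 => hcon P hP h1 h2 h3 h4
  haveI : Om1 (aleph.{0} 1).ord.ToType := om1_of_aleph1
  obtain ⟨S, hS, hcard⟩ := exists_evd_family (W := (aleph.{0} 1).ord.ToType)
  obtain ⟨T, hTS, hT⟩ := Cardinal.le_mk_iff_exists_subset.1 hcard
  have hne : Nonempty T := by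
    rw [← Cardinal.mk_ne_zero_iff, hT]
    exact (Cardinal.aleph_pos 2).ne'
  obtain ⟨k0⟩ := hne
  exact fa_contra H k0 hT (fun α : T => α.1) fun α β hαβ =>
    hS α.1 (hTS α.2) β.1 (hTS β.2) fun h => hαβ (Subtype.ext h)

end Pool.Agent.FA2S
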